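import Mathlib

/-!
# Distinct multinomial coefficients versus restricted partitions (MP_2e8272_nt): definitions
-/

namespace Pool.Agent.Lib.MP_2e8272_nt

/-- the set of all multinomial coefficients of order `n`: the integers
`n! / (i_0! i_1! ... i_(k-1)!)` with `k ≥ 1` and `i_0 + ... + i_(k-1) = n`. -/
def multinomialValues (n : ℕ) : Set ℕ :=
  {m | ∃ k : ℕ, 1 ≤ k ∧ ∃ i : Fin k → ℕ, ∑ j, i j = n ∧ m = Nat.multinomial Finset.univ i}

/-- `M n` is the number of distinct multinomial coefficients of order `n` -/
noncomputable def M (n : ℕ) : ℕ := (multinomialValues n).ncard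

/-- `pSharp n` is the number of partitions of `n` all of whose parts are at most 7 or
divisible by 3 -/
def pSharp (n : ℕ) : ℕ := Fintype.card {l : n.Partition // ∀ a ∈ l.parts, a ≤ 7 ∨ 3 ∣ a}

end Pool.Agent.Lib.MP_2e8272_nt
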