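import Pool.Agent.Lib.MP_2e8272_nt.Defs

/-!
# Distinct multinomial coefficients versus restricted partitions (MP_2e8272_nt)
-/

namespace Pool.Agent.Lib.MP_2e8272_nt

open Finset


/-- product of the factorials of the members of a multiset -/
def facProd (s : Multiset ℕ) : ℕ := (s.map Nat.factorial).prod

theorem facProd_ne_zero (s : Multiset ℕ) : facProd s ≠ 0 := by
  unfold facProd
  rw [Ne, Multiset.prod_eq_zero_iff]
  simp [Nat.factorial_ne_zero]

theorem facProd_cons (a : ℕ) (s : Multiset ℕ) : facProd (a ::ₘ s) = a.factorial * facProd s := by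
  simp [facProd]

/-- exponents of primes in a factorial decrease with the prime -/
theorem fact_factorial_anti {p q : ℕ} (hp : p.Prime) (hq : q.Prime) (hpq : p ≤ q) (m : ℕ) :
    m.factorial.factorization q ≤ m.factorial.factorization p := by
  set b := Nat.log p m + 1 with hb
  rw [Nat.factorization_factorial hq (show Nat.log q m < b by
      have : Nat.log q m ≤ Nat.log p m := Nat.log_anti_left hp.one_lt hpq
      omega),
    Nat.factorization_factorial hp (show Nat.log p m < b by omega)]
  apply Finset.sum_le_sum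
  intro i _
  exact Nat.div_le_div_left (Nat.pow_le_pow_left hpq i) (pow_pos hp.pos i)

theorem fact_factorial_le {p : ℕ} (hp : p.Prime) (m : ℕ) :
    p * m.factorial.factorization p ≤ 2 * m := by
  have := Fact.mk hp
  have h := sub_one_mul_padicValNat_factorial (p := p) m
  rw [← Nat.factorization_def _ hp] at h
  have h2 : (p - 1) * m.factorial.factorization p ≤ m := by rw [h]; exact Nat.sub_le _ _
  have h3 : p ≤ 2 * (p - 1) := by have := hp.two_le; omega
  calc p * m.factorial.factorization p ≤ 2 * (p - 1) * m.factorial.factorization p :=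
        Nat.mul_le_mul_right _ h3
    _ = 2 * ((p - 1) * m.factorial.factorization p) := by ring
    _ ≤ 2 * m := Nat.mul_le_mul_left _ h2

theorem facProd_anti {p q : ℕ} (hp : p.Prime) (hq : q.Prime) (hpq : p ≤ q) (s : Multiset ℕ) :
    (facProd s).factorization q ≤ (facProd s).factorization p := by
  induction s using Multiset.induction_on with
  | empty => simp [facProd]
  | cons a s ih =>
    rw [facProd_cons, Nat.factorization_mul (Nat.factorial_ne_zero a) (facProd_ne_zero s)]
    simp only [Finsupp.add_apply]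
    exact Nat.add_le_add (fact_factorial_anti hp hq hpq a) ih

theorem facProd_le {p : ℕ} (hp : p.Prime) (s : Multiset ℕ) :
    p * (facProd s).factorization p ≤ 2 * s.sum := by
  induction s using Multiset.induction_on with
  | empty => simp [facProd]
  | cons a s ih =>
    rw [facProd_cons, Nat.factorization_mul (Nat.factorial_ne_zero a) (facProd_ne_zero s)]
    simp only [Finsupp.add_apply, Multiset.sum_cons]
    have := fact_factorial_le hp a
    nlinarith

theorem facProd_dvd (s : Multiset ℕ) : facProd s ∣ s.sum.factorial := by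
  induction s using Multiset.induction_on with
  | empty => simp [facProd]
  | cons a s ih =>
    rw [facProd_cons, Multiset.sum_cons]
    exact (Nat.mul_dvd_mul_left _ ih).trans (Nat.factorial_mul_factorial_dvd_factorial_add a s.sum)

theorem mem_multinomialValues (n m : ℕ) :
    m ∈ multinomialValues n ↔ ∃ s : Multiset ℕ, s.sum = n ∧ m * facProd s = n.factorial := by
  constructor
  · rintro ⟨k, hk, i, hi, rfl⟩
    refine ⟨(Finset.univ : Finset (Fin k)).val.map i, hi, ?_⟩
    have := Nat.multinomial_spec (Finset.univ : Finset (Fin k)) i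
    rw [hi] at this
    rw [← this, mul_comm]
    congr 1
    simp [facProd, Finset.prod]
    rfl
  · rintro ⟨s, hs, hm⟩
    -- add a zero to make it nonempty
    obtain ⟨l, hl⟩ : ∃ l : List ℕ, ((l : List ℕ) : Multiset ℕ) = 0 ::ₘ s := Quot.exists_rep _
    have hlen : 1 ≤ l.length := by
      have := congrArg Multiset.card hl
      simp at this
      omega
    refine ⟨l.length, hlen, l.get, ?_, ?_⟩
    · have h1 : ∑ j, l.get j = l.sum := by
        simp [← List.sum_ofFn]
      rw [h1, ← Multiset.sum_coe, hl, Multiset.sum_cons, hs, zero_add]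
    · have h1 : ∑ j, l.get j = n := by
        have h1 : ∑ j, l.get j = l.sum := by
          simp [← List.sum_ofFn]
        rw [h1, ← Multiset.sum_coe, hl, Multiset.sum_cons, hs, zero_add]
      have h2 := Nat.multinomial_spec (Finset.univ : Finset (Fin l.length)) l.get
      rw [h1, ← hm] at h2
      have h3 : ∏ j, (l.get j).factorial = facProd s := by
        have : ∏ j, (l.get j).factorial = (l.map Nat.factorial).prod := by
          rw [← List.prod_ofFn]
          congr 1
          conv_rhs => rw [← List.ofFn_get l, List.map_ofFn]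
          rfl
        rw [this]
        have h4 : facProd (0 ::ₘ s) = facProd s := by rw [facProd_cons]; simp
        rw [← h4, ← hl]
        simp [facProd]
      rw [h3] at h2
      have h4 := Nat.pos_of_ne_zero (facProd_ne_zero s)
      apply Nat.eq_of_mul_eq_mul_left h4
      rw [h2]; ring


/-- two functions that decrease along a finite set of naturals and take the same values with
multiplicity agree on the set -/
theorem eq_of_map_eq {P : Finset ℕ} {f g : ℕ → ℕ}
    (hf : ∀ p ∈ P, ∀ q ∈ P, p ≤ q → f q ≤ f p) (hg : ∀ p ∈ P, ∀ q ∈ P, p ≤ q → g q ≤ g p)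
    (h : P.val.map f = P.val.map g) : ∀ p ∈ P, f p = g p := by
  have key : ∀ (f : ℕ → ℕ), (∀ p ∈ P, ∀ q ∈ P, p ≤ q → f q ≤ f p) → 
      ((P.sort (· ≤ ·)).map f).Pairwise (fun a b => b ≤ a) := by
    intro f hf
    rw [List.pairwise_map]
    have h1 : (P.sort (· ≤ ·)).Pairwise (· ≤ ·) := P.pairwise_sort (· ≤ ·)
    refine (List.Pairwise.and_mem.1 h1).imp ?_
    rintro a b ⟨ha, hb, hab⟩
    exact hf a (by simpa using ha) b (by simpa using hb) hab
  have hperm : ((P.sort (· ≤ ·)).map f).Perm ((P.sort (· ≤ ·)).map g) := by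
    rw [← Multiset.coe_eq_coe, ← Multiset.map_coe, ← Multiset.map_coe, Finset.sort_eq]
    exact h
  have heq := hperm.eq_of_pairwise (fun a b _ _ h1 h2 => le_antisymm h2 h1) (key f hf) (key g hg)
  intro p hp
  rw [List.map_inj_left] at heq
  exact heq p (by simpa using hp)

/-- primes in the dyadic block `[2^a, 2^(a+1))` -/
def block (a : ℕ) : Finset ℕ := (Finset.Ico (2 ^ a) (2 ^ (a + 1))).filter Nat.Prime

/-- bound for exponents in the block -/
def hgt (n a : ℕ) : ℕ := 2 * n / 2 ^ a

/-- the exponent pattern of `D` in block `a` -/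
def pat (D a : ℕ) : Multiset ℕ := (block a).val.map (fun p => D.factorization p)

/-- multisets of cardinality `k` with members at most `H` -/
def boxes (H k : ℕ) : Finset (Multiset ℕ) :=
  (Finset.univ : Finset (Sym (Fin (H + 1)) k)).image
    (fun t : Sym (Fin (H + 1)) k => Multiset.map Fin.val t.1)

theorem card_boxes (H k : ℕ) : (boxes H k).card ≤ (H + k).choose k := by
  refine Finset.card_image_le.trans ?_
  rw [Finset.card_univ, Sym.card_sym_eq_multichoose, Fintype.card_fin, Nat.multichoose_eq]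
  apply le_of_eq
  congr 1
  omega

theorem mem_boxes {H k : ℕ} {t : Multiset ℕ} (hk : t.card = k) (h : ∀ x ∈ t, x ≤ H) :
    t ∈ boxes H k := by
  rw [boxes, Finset.mem_image]
  refine ⟨⟨t.map (fun x => Fin.ofNat (H + 1) x), by rw [Multiset.card_map]; exact hk⟩,
    Finset.mem_univ _, ?_⟩
  change Multiset.map _ (Multiset.map _ t) = t
  rw [Multiset.map_map]
  conv_rhs => rw [← Multiset.map_id t]
  apply Multiset.map_congr rfl
  intro x hx
  simp [Fin.ofNat, Nat.mod_eq_of_lt (Nat.lt_succ_of_le (h x hx))]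

theorem pat_mem (n a : ℕ) (s : Multiset ℕ) (hs : s.sum = n) :
    pat (facProd s) a ∈ boxes (hgt n a) (block a).card := by
  apply mem_boxes
  · simp [pat]
  intro x hx
  simp only [pat, Multiset.mem_map, Finset.mem_val] at hx
  obtain ⟨p, hp, rfl⟩ := hx
  simp only [block, Finset.mem_filter, Finset.mem_Ico] at hp
  rw [hgt, Nat.le_div_iff_mul_le (by positivity)]
  have := facProd_le hp.2 s
  rw [hs] at this
  calc _ ≤ (facProd s).factorization p * p := Nat.mul_le_mul_left _ hp.1.1
    _ ≤ _ := by rw [mul_comm]; exact this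

theorem facProd_eq_of_pat {n : ℕ} {s t : Multiset ℕ} (hs : s.sum = n) (ht : t.sum = n)
    (h : ∀ a < Nat.log 2 n + 1, pat (facProd s) a = pat (facProd t) a) :
    facProd s = facProd t := by
  apply Nat.eq_of_factorization_eq (facProd_ne_zero s) (facProd_ne_zero t)
  intro p
  by_cases hp : p.Prime
  · by_cases hpn : p ≤ n
    · have ha : Nat.log 2 p < Nat.log 2 n + 1 := Nat.lt_succ_of_le (Nat.log_mono_right hpn)
      refine eq_of_map_eq (P := block (Nat.log 2 p)) ?_ ?_ (h _ ha) p ?_
      · intro p hp q hq hpq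
        simp only [block, Finset.mem_filter] at hp hq
        exact facProd_anti hp.2 hq.2 hpq s
      · intro p hp q hq hpq
        simp only [block, Finset.mem_filter] at hp hq
        exact facProd_anti hp.2 hq.2 hpq t
      · simp only [block, Finset.mem_filter, Finset.mem_Ico]
        exact ⟨⟨Nat.pow_log_le_self 2 hp.ne_zero, Nat.lt_pow_succ_log_self (by norm_num) p⟩, hp⟩
    · have h1 : ∀ u : Multiset ℕ, u.sum = n → (facProd u).factorization p = 0 := by
        intro u hu
        apply Nat.factorization_eq_zero_of_not_dvd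
        intro hd
        have := hd.trans (facProd_dvd u)
        rw [hu, hp.dvd_factorial] at this
        omega
      rw [h1 s hs, h1 t ht]
  · rw [Nat.factorization_eq_zero_of_not_prime _ hp, Nat.factorization_eq_zero_of_not_prime _ hp]

theorem multinomialValues_finite (n : ℕ) : (multinomialValues n).Finite := by
  apply (Set.finite_Iic (n.factorial)).subset
  intro m hm
  rw [mem_multinomialValues] at hm
  obtain ⟨s, _, hs⟩ := hm
  have := Nat.pos_of_ne_zero (facProd_ne_zero s)
  rw [Set.mem_Iic, ← hs]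
  exact Nat.le_mul_of_pos_right _ this

theorem M_le_prod (n : ℕ) :
    M n ≤ ∏ a ∈ Finset.range (Nat.log 2 n + 1), (hgt n a + (block a).card).choose (block a).card := by
  classical
  set A := Nat.log 2 n + 1 with hA
  set T : Finset (∀ a ∈ Finset.range A, Multiset ℕ) := (Finset.range A).pi
    (fun a => boxes (hgt n a) (block a).card) with hT
  have hcard : T.card ≤ ∏ a ∈ Finset.range A,
      (hgt n a + (block a).card).choose (block a).card := by
    rw [hT, Finset.card_pi]
    apply Finset.prod_le_prod'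
    intro a _
    exact card_boxes _ _
  refine le_trans ?_ hcard
  unfold M
  rw [Set.ncard_eq_toFinset_card _ (multinomialValues_finite n)]
  apply Finset.card_le_card_of_injOn (fun m => fun a _ => pat (n.factorial / m) a)
  · intro m hm
    simp only [Set.Finite.coe_toFinset] at hm
    rw [mem_multinomialValues] at hm
    obtain ⟨s, hs, hms⟩ := hm
    have hpos : 0 < m := by
      rcases Nat.eq_zero_or_pos m with h | h
      · rw [h, zero_mul] at hms
        exact absurd hms.symm (Nat.factorial_ne_zero n)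
      · exact h
    have hD : n.factorial / m = facProd s := by
      rw [← hms]; exact Nat.mul_div_cancel_left _ hpos
    rw [Finset.mem_coe, hT, Finset.mem_pi]
    intro a ha
    change pat (n.factorial / m) a ∈ _
    rw [hD]
    exact pat_mem n a s hs
  · intro m hm m' hm' heq
    simp only [Set.Finite.coe_toFinset] at hm hm'
    rw [mem_multinomialValues] at hm hm'
    obtain ⟨s, hs, hms⟩ := hm
    obtain ⟨t, ht, hmt⟩ := hm'
    have hD : ∀ (m : ℕ) (s : Multiset ℕ), m * facProd s = n.factorial →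
        n.factorial / m = facProd s := by
      intro m s hms
      have hpos : 0 < m := by
        rcases Nat.eq_zero_or_pos m with h | h
        · rw [h, zero_mul] at hms
          exact absurd hms.symm (Nat.factorial_ne_zero n)
        · exact h
      rw [← hms]; exact Nat.mul_div_cancel_left _ hpos
    have h1 : facProd s = facProd t := by
      apply facProd_eq_of_pat hs ht
      intro a ha
      have := congrFun (congrFun heq a) (Finset.mem_range.2 ha)
      simp only [hD m s hms, hD m' t hmt] at this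
      exact this
    have h2 := Nat.pos_of_ne_zero (facProd_ne_zero t)
    apply Nat.eq_of_mul_eq_mul_right h2
    rw [hmt, ← h1, hms]

theorem block_card_mul (a : ℕ) : (block a).card * a ≤ 4 * 2 ^ a := by
  have h1 : ((block a).card : ℝ) * (a * Real.log 2) ≤ Chebyshev.theta ((2 ^ (a + 1) : ℕ) : ℝ) := by
    rw [Chebyshev.theta_eq_sum_primesLE_log]
    calc ((block a).card : ℝ) * (a * Real.log 2) = ∑ p ∈ block a, (a * Real.log 2) := by
          rw [Finset.sum_const, nsmul_eq_mul]
      _ ≤ ∑ p ∈ block a, Real.log p := by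
          apply Finset.sum_le_sum
          intro p hp
          simp only [block, Finset.mem_filter, Finset.mem_Ico] at hp
          rw [← Real.log_pow]
          apply Real.log_le_log (by positivity)
          exact_mod_cast hp.1.1
      _ ≤ ∑ p ∈ Nat.primesLE (2 ^ (a + 1)), Real.log p := by
          apply Finset.sum_le_sum_of_subset_of_nonneg
          · intro p hp
            simp only [block, Finset.mem_filter, Finset.mem_Ico] at hp
            rw [Nat.mem_primesLE]
            exact ⟨hp.1.2.le, hp.2⟩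
          · intro p _ _
            exact Real.log_natCast_nonneg p
  have h2 := Chebyshev.theta_le_log4_mul_x (x := ((2 ^ (a + 1) : ℕ) : ℝ)) (by positivity)
  have h3 : Real.log 4 = 2 * Real.log 2 := by
    rw [show (4 : ℝ) = 2 ^ 2 by norm_num, Real.log_pow]; norm_num
  have h4 : 0 < Real.log 2 := Real.log_pos (by norm_num)
  have h5 : ((block a).card * a : ℝ) * Real.log 2 ≤ (4 * 2 ^ a) * Real.log 2 := by
    have := h1.trans h2
    rw [h3] at this
    push_cast at this
    rw [pow_succ] at this
    nlinarith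
  have h6 := le_of_mul_le_mul_right h5 h4
  exact_mod_cast h6

theorem block_zero : block 0 = ∅ := by decide

theorem choose_bound (k H : ℕ) {x : ℝ} (hx : 0 < x) :
    (((H + k).choose k : ℕ) : ℝ) ≤ Real.exp ((H + k) * x + k * Real.log (1 / x)) := by
  have h1 : (((H + k).choose k : ℕ) : ℝ) * x ^ k ≤ (x + 1) ^ (H + k) := by
    rw [add_pow]
    have := Finset.single_le_sum (f := fun m => x ^ m * (1:ℝ) ^ (H + k - m) * ((H + k).choose m : ℕ))
      (s := Finset.range (H + k + 1)) (fun i _ => by positivity) (show k ∈ Finset.range (H + k + 1) by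
        rw [Finset.mem_range]; omega)
    simp only [one_pow, mul_one] at this ⊢
    linarith
  have h2 : (x + 1) ^ (H + k) ≤ Real.exp ((H + k) * x) := by
    calc (x + 1) ^ (H + k) ≤ (Real.exp x) ^ (H + k) :=
          pow_le_pow_left₀ (by positivity) (Real.add_one_le_exp x) _
      _ = Real.exp ((H + k) * x) := by
          rw [← Real.exp_nat_mul]; push_cast; rfl
  have h3 : Real.exp (k * Real.log (1 / x)) = (x ^ k)⁻¹ := by
    rw [one_div, Real.log_inv, mul_neg, Real.exp_neg, Real.exp_nat_mul, Real.exp_log hx]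
  rw [Real.exp_add, h3, ← div_eq_mul_inv, le_div_iff₀ (by positivity)]
  exact h1.trans h2

theorem choose_bound' (k H : ℕ) {x : ℝ} (hx : 0 < x) :
    (((H + k).choose k : ℕ) : ℝ) ≤ Real.exp ((H + k) * x + H * Real.log (1 / x)) := by
  have := choose_bound H k hx
  rw [Nat.add_comm k H, Nat.choose_symm_add, add_comm (k : ℝ) (H : ℝ)] at this
  exact this

theorem hgt_le (n a : ℕ) : (hgt n a : ℝ) ≤ 2 * n / 2 ^ a := by
  unfold hgt
  have := @Nat.cast_div_le ℝ _ _ _ (2 * n) (2 ^ a)
  push_cast at this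
  exact this

/-- small blocks -/
theorem small_block (n a c : ℕ) (hac : a ≤ c) (hc : 1 ≤ c) :
    (((hgt n a + (block a).card).choose (block a).card : ℕ) : ℝ) ≤
      Real.exp (2 * n * 2 ^ a / 4 ^ c +
        4 * 2 ^ c / c * ((1 + 3 * ((c - a : ℕ) : ℝ) + 2 * ((c - a : ℕ) : ℝ) ^ 2) / 2 ^ (c - a))) := by
  obtain ⟨b, rfl⟩ : ∃ b, c = a + b := ⟨c - a, by omega⟩
  have hb : a + b - a = b := by omega
  rw [hb]
  set k := (block a).card with hk
  have hx : (0:ℝ) < 1 / 4 ^ b := by positivity
  refine (choose_bound k (hgt n a) hx).trans ?_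
  rw [Real.exp_le_exp]
  have hlog : Real.log (1 / (1 / 4 ^ b : ℝ)) ≤ 2 * b := by
    rw [one_div_one_div, Real.log_pow]
    have h3 : Real.log 4 = 2 * Real.log 2 := by
      rw [show (4 : ℝ) = 2 ^ 2 by norm_num, Real.log_pow]; norm_num
    have h4 : Real.log 2 ≤ 1 := by linarith [Real.log_two_lt_d9]
    have h5 : (0:ℝ) ≤ b := by positivity
    rw [h3]; nlinarith
  have hk1 : (k : ℝ) * (a + b) ≤ 4 * 2 ^ a * (1 + b) := by
    rcases Nat.eq_zero_or_pos a with ha | ha
    · have : k = 0 := by rw [hk, ha, block_zero]; rfl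
      rw [this]; push_cast; rw [zero_mul]; positivity
    · have h1 : (k : ℝ) * a ≤ 4 * 2 ^ a := by exact_mod_cast block_card_mul a
      have h2 : (1:ℝ) ≤ a := by exact_mod_cast ha
      have h3 : (k : ℝ) ≤ 4 * 2 ^ a := by nlinarith [show (0:ℝ) ≤ k by positivity]
      nlinarith [show (0:ℝ) ≤ b by positivity]
  have hab : (0:ℝ) < (a : ℝ) + b := by
    have : (1:ℝ) ≤ ((a + b : ℕ) : ℝ) := by exact_mod_cast hc
    push_cast at this; linarith
  have hk2 : (k : ℝ) ≤ 4 * 2 ^ a * (1 + b) / (a + b) := by
    rw [le_div_iff₀ hab]; exact hk1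
  have hH : (hgt n a : ℝ) * (1 / 4 ^ b) ≤ 2 * n * 2 ^ a / 4 ^ (a + b) := by
    calc (hgt n a : ℝ) * (1 / 4 ^ b) ≤ (2 * n / 2 ^ a) * (1 / 4 ^ b) :=
          mul_le_mul_of_nonneg_right (hgt_le n a) hx.le
      _ = 2 * n * 2 ^ a / 4 ^ (a + b) := by
          rw [pow_add, show (4:ℝ) ^ a = 2 ^ a * 2 ^ a by rw [← mul_pow]; norm_num]
          field_simp
  have hx1 : (1 / 4 ^ b : ℝ) ≤ 1 := by
    rw [div_le_one (by positivity)]
    exact one_le_pow₀ (by norm_num)
  have hkk : (k : ℝ) * (1 / 4 ^ b) + k * Real.log (1 / (1 / 4 ^ b : ℝ)) ≤ k * (1 + 2 * b) := by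
    have : (0:ℝ) ≤ k := by positivity
    nlinarith
  have hfin : (k : ℝ) * (1 + 2 * b) ≤ 4 * 2 ^ (a + b) / ((a + b : ℕ) : ℝ) *
      ((1 + 3 * (b : ℝ) + 2 * (b : ℝ) ^ 2) / 2 ^ b) := by
    calc (k : ℝ) * (1 + 2 * b) ≤ 4 * 2 ^ a * (1 + b) / (a + b) * (1 + 2 * b) :=
          mul_le_mul_of_nonneg_right hk2 (by positivity)
      _ = _ := by
          push_cast
          rw [pow_add]
          field_simp
          ring
  calc ((hgt n a : ℝ) + k) * (1 / 4 ^ b) + k * Real.log (1 / (1 / 4 ^ b : ℝ))
      = (hgt n a : ℝ) * (1 / 4 ^ b) + (k * (1 / 4 ^ b) + k * Real.log (1 / (1 / 4 ^ b : ℝ))) := by ring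
    _ ≤ _ := add_le_add hH (hkk.trans hfin)

/-- large blocks -/
theorem large_block (n c j : ℕ) (hc : 1 ≤ c) :
    (((hgt n (c + 1 + j) + (block (c + 1 + j)).card).choose (block (c + 1 + j)).card : ℕ) : ℝ) ≤
      Real.exp (2 * 2 ^ c / c * (1 / 2 ^ j) +
        n / 2 ^ c * ((3 + 2 * (j : ℝ)) / 2 ^ j)) := by
  set a := c + 1 + j with ha
  set k := (block a).card with hk
  have hx : (0:ℝ) < 1 / 4 ^ (1 + j) := by positivity
  refine (choose_bound' k (hgt n a) hx).trans ?_
  rw [Real.exp_le_exp]
  have hlog : Real.log (1 / (1 / 4 ^ (1 + j) : ℝ)) ≤ 2 * (1 + j) := by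
    rw [one_div_one_div, Real.log_pow]
    have h3 : Real.log 4 = 2 * Real.log 2 := by
      rw [show (4 : ℝ) = 2 ^ 2 by norm_num, Real.log_pow]; norm_num
    have h4 : Real.log 2 ≤ 1 := by linarith [Real.log_two_lt_d9]
    have h5 : (0:ℝ) ≤ ((1 + j : ℕ) : ℝ) := by positivity
    rw [h3]; push_cast at *; nlinarith
  have hc' : (1:ℝ) ≤ c := by exact_mod_cast hc
  have hk1 : (k : ℝ) * c ≤ 4 * 2 ^ a := by
    have h1 : (k : ℝ) * a ≤ 4 * 2 ^ a := by exact_mod_cast block_card_mul a
    have h2 : (c:ℝ) ≤ a := by exact_mod_cast (by omega : c ≤ a)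
    nlinarith [show (0:ℝ) ≤ k by positivity]
  have hk2 : (k : ℝ) ≤ 4 * 2 ^ a / c := by
    rw [le_div_iff₀ (by linarith)]; exact hk1
  have hK : (k : ℝ) * (1 / 4 ^ (1 + j)) ≤ 2 * 2 ^ c / c * (1 / 2 ^ j) := by
    calc (k : ℝ) * (1 / 4 ^ (1 + j)) ≤ (4 * 2 ^ a / c) * (1 / 4 ^ (1 + j)) :=
          mul_le_mul_of_nonneg_right hk2 hx.le
      _ = 2 * 2 ^ c / c * (1 / 2 ^ j) := by
          rw [ha, pow_add, pow_add, pow_add, show (4:ℝ) ^ j = 2 ^ j * 2 ^ j by rw [← mul_pow]; norm_num]
          field_simp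
  have hx1 : (1 / 4 ^ (1 + j) : ℝ) ≤ 1 := by
    rw [div_le_one (by positivity)]
    exact one_le_pow₀ (by norm_num)
  have hHH : (hgt n a : ℝ) * (1 / 4 ^ (1 + j)) + hgt n a * Real.log (1 / (1 / 4 ^ (1 + j) : ℝ)) ≤
      hgt n a * (3 + 2 * j) := by
    have : (0:ℝ) ≤ hgt n a := by positivity
    nlinarith
  have hfin : (hgt n a : ℝ) * (3 + 2 * j) ≤ n / 2 ^ c * ((3 + 2 * (j : ℝ)) / 2 ^ j) := by
    calc (hgt n a : ℝ) * (3 + 2 * j) ≤ (2 * n / 2 ^ a) * (3 + 2 * j) :=
          mul_le_mul_of_nonneg_right (hgt_le n a) (by positivity)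
      _ = _ := by
          rw [ha, pow_add, pow_add]
          field_simp
  calc ((hgt n a : ℝ) + k) * (1 / 4 ^ (1 + j)) + hgt n a * Real.log (1 / (1 / 4 ^ (1 + j) : ℝ))
      = (k : ℝ) * (1 / 4 ^ (1 + j)) + ((hgt n a : ℝ) * (1 / 4 ^ (1 + j)) +
        hgt n a * Real.log (1 / (1 / 4 ^ (1 + j) : ℝ))) := by ring
    _ ≤ _ := add_le_add hK (hHH.trans hfin)

theorem sum1 (m : ℕ) : ∑ b ∈ Finset.range m, ((1 + 3 * (b : ℝ) + 2 * (b : ℝ) ^ 2) / 2 ^ b) ≤ 20 := by
  have : ∑ b ∈ Finset.range m, ((1 + 3 * (b : ℝ) + 2 * (b : ℝ) ^ 2) / 2 ^ b) =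
      20 - (4 * (m : ℝ) ^ 2 + 14 * m + 20) / 2 ^ m := by
    induction m with
    | zero => norm_num
    | succ m ih =>
      rw [Finset.sum_range_succ, ih]
      push_cast
      rw [pow_succ]
      field_simp
      ring
  rw [this]
  have : 0 ≤ (4 * (m : ℝ) ^ 2 + 14 * m + 20) / 2 ^ m := by positivity
  linarith

theorem sum2 (m : ℕ) : ∑ b ∈ Finset.range m, ((1 : ℝ) / 2 ^ b) ≤ 2 := by
  have : ∑ b ∈ Finset.range m, ((1 : ℝ) / 2 ^ b) = 2 - 2 / 2 ^ m := by
    induction m with
    | zero => norm_num
    | succ m ih =>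
      rw [Finset.sum_range_succ, ih]
      rw [pow_succ]
      field_simp
      ring
  rw [this]
  have : (0:ℝ) ≤ 2 / 2 ^ m := by positivity
  linarith

theorem sum3 (m : ℕ) : ∑ b ∈ Finset.range m, ((3 + 2 * (b : ℝ)) / 2 ^ b) ≤ 10 := by
  have : ∑ b ∈ Finset.range m, ((3 + 2 * (b : ℝ)) / 2 ^ b) =
      10 - (4 * (m : ℝ) + 10) / 2 ^ m := by
    induction m with
    | zero => norm_num
    | succ m ih =>
      rw [Finset.sum_range_succ, ih]
      push_cast
      rw [pow_succ]
      field_simp
      ring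
  rw [this]
  have : 0 ≤ (4 * (m : ℝ) + 10) / 2 ^ m := by positivity
  linarith

theorem sum4 (m : ℕ) : ∑ b ∈ Finset.range m, ((2 : ℝ) ^ b) ≤ 2 ^ m := by
  have : ∑ b ∈ Finset.range m, ((2 : ℝ) ^ b) = 2 ^ m - 1 := by
    induction m with
    | zero => norm_num
    | succ m ih =>
      rw [Finset.sum_range_succ, ih, pow_succ]
      ring
  rw [this]; linarith

theorem prod_bound (n c A : ℕ) (hc : 1 ≤ c) :
    ((∏ a ∈ Finset.range A, (hgt n a + (block a).card).choose (block a).card : ℕ) : ℝ) ≤
      Real.exp (84 * (2 ^ c / c) + 14 * (n / 2 ^ c)) := by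
  have hone : ∀ a, 1 ≤ (hgt n a + (block a).card).choose (block a).card := by
    intro a
    exact Nat.choose_pos (Nat.le_add_left _ _)
  have hmono : (∏ a ∈ Finset.range A, (hgt n a + (block a).card).choose (block a).card) ≤
      ∏ a ∈ Finset.range (c + 1 + A), (hgt n a + (block a).card).choose (block a).card := by
    apply Finset.prod_le_prod_of_subset_of_one_le'
    · intro x hx
      simp only [Finset.mem_range] at *
      omega
    · intro a _ _
      exact hone a
  have h1 : ((∏ a ∈ Finset.range A, (hgt n a + (block a).card).choose (block a).card : ℕ) : ℝ) ≤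
      ((∏ a ∈ Finset.range (c + 1 + A), (hgt n a + (block a).card).choose (block a).card : ℕ) : ℝ) := by
    exact_mod_cast hmono
  refine h1.trans ?_
  rw [Finset.prod_range_add]
  push_cast
  have hA1 : (∏ a ∈ Finset.range (c + 1),
      (((hgt n a + (block a).card).choose (block a).card : ℕ) : ℝ)) ≤
      Real.exp (4 * (n / 2 ^ c) + 80 * (2 ^ c / c)) := by
    calc (∏ a ∈ Finset.range (c + 1),
        (((hgt n a + (block a).card).choose (block a).card : ℕ) : ℝ)) ≤
        ∏ a ∈ Finset.range (c + 1), Real.exp (2 * n * 2 ^ a / 4 ^ c +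
        4 * 2 ^ c / c * ((1 + 3 * ((c - a : ℕ) : ℝ) + 2 * ((c - a : ℕ) : ℝ) ^ 2) / 2 ^ (c - a))) := by
          apply Finset.prod_le_prod
          · intro i _; positivity
          · intro a ha
            exact small_block n a c (by rw [Finset.mem_range] at ha; omega) hc
      _ = Real.exp (∑ a ∈ Finset.range (c + 1), (2 * n * 2 ^ a / 4 ^ c +
        4 * 2 ^ c / c * ((1 + 3 * ((c - a : ℕ) : ℝ) + 2 * ((c - a : ℕ) : ℝ) ^ 2) / 2 ^ (c - a)))) := by
          rw [Real.exp_sum]
      _ ≤ _ := by
          rw [Real.exp_le_exp, Finset.sum_add_distrib]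
          apply add_le_add
          · have : ∑ a ∈ Finset.range (c + 1), (2 * (n:ℝ) * 2 ^ a / 4 ^ c) =
                2 * n / 4 ^ c * ∑ a ∈ Finset.range (c + 1), (2:ℝ) ^ a := by
              rw [Finset.mul_sum]
              apply Finset.sum_congr rfl
              intro a _
              ring
            rw [this]
            calc 2 * (n:ℝ) / 4 ^ c * ∑ a ∈ Finset.range (c + 1), (2:ℝ) ^ a ≤
                2 * (n:ℝ) / 4 ^ c * 2 ^ (c + 1) :=
                  mul_le_mul_of_nonneg_left (sum4 _) (by positivity)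
              _ = 4 * (n / 2 ^ c) := by
                  rw [show (4:ℝ) ^ c = 2 ^ c * 2 ^ c by rw [← mul_pow]; norm_num, pow_succ]
                  field_simp
                  ring
          · rw [← Finset.mul_sum]
            have hrefl := Finset.sum_range_reflect
              (fun b : ℕ => ((1 + 3 * (b : ℝ) + 2 * (b : ℝ) ^ 2) / 2 ^ b)) (c + 1)
            have : ∑ a ∈ Finset.range (c + 1),
                ((1 + 3 * ((c - a : ℕ) : ℝ) + 2 * ((c - a : ℕ) : ℝ) ^ 2) / 2 ^ (c - a)) ≤ 20 := by
              have h := sum1 (c + 1)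
              rw [← hrefl] at h
              simp only [Nat.add_sub_cancel] at h
              exact h
            calc 4 * (2:ℝ) ^ c / c * _ ≤ 4 * (2:ℝ) ^ c / c * 20 :=
                  mul_le_mul_of_nonneg_left this (by positivity)
              _ = 80 * (2 ^ c / c) := by ring
  have hA2 : (∏ j ∈ Finset.range A,
      (((hgt n (c + 1 + j) + (block (c + 1 + j)).card).choose (block (c + 1 + j)).card : ℕ) : ℝ)) ≤
      Real.exp (4 * (2 ^ c / c) + 10 * (n / 2 ^ c)) := by
    calc _ ≤ ∏ j ∈ Finset.range A, Real.exp (2 * 2 ^ c / c * (1 / 2 ^ j) +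
        n / 2 ^ c * ((3 + 2 * (j : ℝ)) / 2 ^ j)) := by
          apply Finset.prod_le_prod
          · intro i _; positivity
          · intro j _
            exact large_block n c j hc
      _ = Real.exp (∑ j ∈ Finset.range A, (2 * 2 ^ c / c * (1 / 2 ^ j) +
        n / 2 ^ c * ((3 + 2 * (j : ℝ)) / 2 ^ j))) := by
          rw [Real.exp_sum]
      _ ≤ _ := by
          rw [Real.exp_le_exp, Finset.sum_add_distrib, ← Finset.mul_sum, ← Finset.mul_sum]
          apply add_le_add
          · calc 2 * (2:ℝ) ^ c / c * _ ≤ 2 * (2:ℝ) ^ c / c * 2 :=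
                  mul_le_mul_of_nonneg_left (sum2 A) (by positivity)
              _ = 4 * (2 ^ c / c) := by ring
          · calc (n:ℝ) / 2 ^ c * _ ≤ (n:ℝ) / 2 ^ c * 10 :=
                  mul_le_mul_of_nonneg_left (sum3 A) (by positivity)
              _ = 10 * (n / 2 ^ c) := by ring
  calc _ ≤ Real.exp (4 * (n / 2 ^ c) + 80 * (2 ^ c / c)) *
        Real.exp (4 * (2 ^ c / c) + 10 * (n / 2 ^ c)) := by
        apply mul_le_mul hA1 hA2
        · apply Finset.prod_nonneg
          intro i _
          positivity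
        · positivity
    _ = _ := by
        rw [← Real.exp_add]
        congr 1
        ring

/-- elementary choice of the parameter -/
theorem choice (n : ℕ) (hn : 256 ≤ n) : ∃ c : ℕ, 1 ≤ c ∧
    (84 * (2 ^ c / c) + 14 * (n / 2 ^ c) : ℝ) ≤ 224 * Real.sqrt (n / (Nat.log 2 n : ℝ)) := by
  set L := Nat.log 2 n with hL
  have hL8 : 8 ≤ L := by
    rw [hL]
    calc 8 = Nat.log 2 (2 ^ 8) := by rw [Nat.log_pow (by norm_num)]
      _ ≤ _ := Nat.log_mono_right (by norm_num; exact hn)
  have hLn : 2 ^ L ≤ n := Nat.pow_log_le_self 2 (by omega)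
  set s := Nat.sqrt (n * L) with hs
  have hs1 : s * s ≤ n * L := Nat.sqrt_le _
  have hs2 : n * L < (s + 1) * (s + 1) := Nat.lt_succ_sqrt _
  set c := Nat.log 2 s with hc
  have hspos : s ≠ 0 := by
    intro h
    rw [h] at hs2
    have : 1 * 1 ≤ n * L := Nat.mul_le_mul (by omega) (by omega)
    omega
  have hc1 : 2 ^ c ≤ s := Nat.pow_log_le_self 2 hspos
  have hc2 : s < 2 ^ (c + 1) := Nat.lt_pow_succ_log_self (by norm_num) s
  have hcL : L ≤ 2 * c := by
    by_contra hcon
    push Not at hcon
    have h1 : (s + 1) * (s + 1) ≤ 2 ^ (c + 1) * 2 ^ (c + 1) := Nat.mul_le_mul hc2 hc2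
    have h2 : 2 ^ (c + 1) * 2 ^ (c + 1) = 2 ^ (2 * c + 2) := by rw [← pow_add]; ring_nf
    have h3 : 2 ^ L * 8 ≤ n * L := Nat.mul_le_mul hLn hL8
    have h4 : 2 ^ (2 * c + 2) ≤ 2 ^ L * 8 := by
      calc 2 ^ (2 * c + 2) ≤ 2 ^ (L + 3) := Nat.pow_le_pow_right (by norm_num) (by omega)
        _ = 2 ^ L * 8 := by rw [pow_add]; norm_num
    omega
  have hcpos : 1 ≤ c := by omega
  refine ⟨c, hcpos, ?_⟩
  have hLr : (0:ℝ) < L := by positivity
  have hnr : (0:ℝ) < n := by
    have : 0 < n := by omega
    exact_mod_cast this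
  set r := Real.sqrt (n / (L : ℝ)) with hr
  have hrr : r * r = n / L := Real.mul_self_sqrt (by positivity)
  have hrpos : 0 < r := Real.sqrt_pos.2 (by positivity)
  -- s ≤ r * L ≤ s + 1
  have hrL : (r * L) * (r * L) = n * L := by
    calc (r * L) * (r * L) = (r * r) * (L * L) := by ring
      _ = n * L := by rw [hrr]; field_simp
  have hsr : (s : ℝ) ≤ r * L := by
    have h1 : (s : ℝ) * s ≤ (r * L) * (r * L) := by rw [hrL]; exact_mod_cast hs1
    exact (mul_self_le_mul_self_iff (by positivity) (by positivity)).2 h1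
  have hsr2 : r * L ≤ s + 1 := by
    have h1 : (r * L) * (r * L) ≤ ((s : ℝ) + 1) * (s + 1) := by rw [hrL]; exact_mod_cast hs2.le
    exact (mul_self_le_mul_self_iff (by positivity) (by positivity)).2 h1
  have hs1' : (1:ℝ) ≤ s := by exact_mod_cast Nat.one_le_iff_ne_zero.2 hspos
  have hsr3 : r * L ≤ 2 * s := by linarith
  have hcr : (L : ℝ) ≤ 2 * c := by exact_mod_cast hcL
  have hc0 : (0:ℝ) < c := by positivity
  have h2c : (2:ℝ) ^ c ≤ s := by exact_mod_cast hc1
  have h2c' : (s : ℝ) ≤ 2 * 2 ^ c := by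
    have : (s : ℝ) ≤ 2 ^ (c + 1) := by exact_mod_cast hc2.le
    rw [pow_succ] at this; linarith
  have t1 : (2:ℝ) ^ c / c ≤ 2 * r := by
    rw [div_le_iff₀ hc0]
    nlinarith
  have t2 : (n : ℝ) / 2 ^ c ≤ 4 * r := by
    rw [div_le_iff₀ (by positivity)]
    have h1 : (n : ℝ) = r * (r * L) := by
      have : r * (r * L) = (r * r) * L := by ring
      rw [this, hrr]; field_simp
    rw [h1]
    nlinarith
  linarith

theorem log_le_natLog (n : ℕ) (hn : 256 ≤ n) : Real.log n ≤ (Nat.log 2 n : ℝ) := by
  have h1 : n < 2 ^ (Nat.log 2 n + 1) := Nat.lt_pow_succ_log_self (by norm_num) n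
  have h2 : (n : ℝ) ≤ 2 ^ (Nat.log 2 n + 1) := by exact_mod_cast h1.le
  have h3 : Real.log n ≤ (Nat.log 2 n + 1 : ℕ) * Real.log 2 := by
    rw [← Real.log_pow]
    apply Real.log_le_log _ h2
    have : 0 < n := by omega
    exact_mod_cast this
  have hL8 : 8 ≤ Nat.log 2 n := by
    calc 8 = Nat.log 2 (2 ^ 8) := by rw [Nat.log_pow (by norm_num)]
      _ ≤ _ := Nat.log_mono_right (by norm_num; exact hn)
  have h4 : (8:ℝ) ≤ Nat.log 2 n := by exact_mod_cast hL8
  have h5 := Real.log_two_lt_d9
  push_cast at h3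
  nlinarith

theorem sum_le_sq {k : ℕ} {S : Finset ℕ} (hS : S ⊆ Finset.Icc 1 k) : S.sum id ≤ k * k := by
  calc S.sum id ≤ S.card • k := by
        apply Finset.sum_le_card_nsmul
        intro x hx
        exact (Finset.mem_Icc.1 (hS hx)).2
    _ ≤ k * k := by
        rw [smul_eq_mul]
        apply Nat.mul_le_mul_right
        calc S.card ≤ (Finset.Icc 1 k).card := Finset.card_le_card hS
          _ = k := by simp

/-- the partition attached to a set of integers -/
def mkPart (n k : ℕ) (hk : 3 * (k * k) ≤ n) (S : {S : Finset ℕ // S ∈ (Finset.Icc 1 k).powerset}) :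
    {l : n.Partition // ∀ a ∈ l.parts, a ≤ 7 ∨ 3 ∣ a} :=
  ⟨{ parts := S.1.val.map (fun x => 3 * x) + Multiset.replicate (n - 3 * S.1.sum id) 1
     parts_pos := by
      intro i hi
      rw [Multiset.mem_add] at hi
      rcases hi with hi | hi
      · rw [Multiset.mem_map] at hi
        obtain ⟨x, hx, rfl⟩ := hi
        have := (Finset.mem_Icc.1 ((Finset.mem_powerset.1 S.2) hx)).1
        omega
      · rw [Multiset.eq_of_mem_replicate hi]; norm_num
     parts_sum := by
      rw [Multiset.sum_add, Multiset.sum_map_mul_left, Multiset.sum_replicate]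
      have h1 : (S.1.val.map (fun x => x)).sum = S.1.sum id := rfl
      rw [h1]
      have := sum_le_sq (Finset.mem_powerset.1 S.2)
      simp only [smul_eq_mul, mul_one]
      omega }, by
    intro a ha
    rw [Multiset.mem_add] at ha
    rcases ha with hi | hi
    · rw [Multiset.mem_map] at hi
      obtain ⟨x, hx, rfl⟩ := hi
      exact Or.inr (Dvd.intro _ rfl)
    · rw [Multiset.eq_of_mem_replicate hi]; left; norm_num⟩

theorem pow_le_pSharp (n k : ℕ) (hk : 3 * (k * k) ≤ n) : 2 ^ k ≤ pSharp n := by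
  have hinj : Function.Injective (mkPart n k hk) := by
    intro S T h
    have h1 : S.1.val.map (fun x => 3 * x) + Multiset.replicate (n - 3 * S.1.sum id) 1 =
        T.1.val.map (fun x => 3 * x) + Multiset.replicate (n - 3 * T.1.sum id) 1 :=
      congrArg (fun l => l.1.parts) h
    have h2 := congrArg (Multiset.filter (fun x => 3 ∣ x)) h1
    rw [Multiset.filter_add, Multiset.filter_add] at h2
    have h3 : ∀ U : Finset ℕ, Multiset.filter (fun x => 3 ∣ x) (U.val.map (fun x => 3 * x)) =
        U.val.map (fun x => 3 * x) := by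
      intro U
      rw [Multiset.filter_eq_self]
      intro a ha
      rw [Multiset.mem_map] at ha
      obtain ⟨x, _, rfl⟩ := ha
      exact Dvd.intro _ rfl
    have h4 : ∀ m, Multiset.filter (fun x => 3 ∣ x) (Multiset.replicate m 1) = 0 := by
      intro m
      rw [Multiset.filter_eq_nil]
      intro a ha
      rw [Multiset.eq_of_mem_replicate ha]; norm_num
    rw [h3, h3, h4, h4, add_zero, add_zero] at h2
    have h5 := Multiset.map_injective (fun a b (h : 3 * a = 3 * b) => by omega) h2
    apply Subtype.ext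
    exact Finset.val_injective h5
  have := Fintype.card_le_of_injective _ hinj
  unfold pSharp
  refine le_trans ?_ this
  rw [Fintype.card_coe, Finset.card_powerset]
  simp

/-- subsets of primes give distinct products of factorials -/
theorem prodFac_injOn (x : ℕ) : Set.InjOn (fun S : Finset ℕ => facProd S.val)
    {S | S ⊆ Nat.primesLE x} := by
  intro S hS T hT heq
  by_contra hne
  have hsd : (symmDiff S T).Nonempty := by
    rw [Finset.nonempty_iff_ne_empty, Ne, ← Finset.bot_eq_empty, symmDiff_eq_bot]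
    exact hne
  set q := (symmDiff S T).max' hsd with hq
  have hqmem : q ∈ symmDiff S T := Finset.max'_mem _ _
  -- general claim
  have key : ∀ S T : Finset ℕ, S ⊆ Nat.primesLE x → T ⊆ Nat.primesLE x → q ∈ S → q ∉ T →
      (∀ p, q < p → (p ∈ S ↔ p ∈ T)) → facProd S.val ≠ facProd T.val := by
    intro S T hS hT hqS hqT hagree hEq
    have hqp : q.Prime := (Nat.mem_primesLE.1 (hS hqS)).2
    have hval : ∀ U : Finset ℕ, U ⊆ Nat.primesLE x → (facProd U.val).factorization q =
        ∑ p ∈ U, (p.factorial).factorization q := by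
      intro U _
      have : facProd U.val = ∏ p ∈ U, p.factorial := rfl
      rw [this, Nat.factorization_prod (fun p _ => Nat.factorial_ne_zero p), Finsupp.finsetSum_apply]
    have h1 := congrArg (fun m : ℕ => m.factorization q) hEq
    rw [hval S hS, hval T hT] at h1
    have hsplit : ∀ U : Finset ℕ, ∑ p ∈ U, (p.factorial).factorization q =
        ∑ p ∈ U.filter (fun p => q < p), (p.factorial).factorization q +
        ∑ p ∈ U.filter (fun p => ¬ q < p), (p.factorial).factorization q := by
      intro U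
      rw [Finset.sum_filter_add_sum_filter_not]
    rw [hsplit S, hsplit T] at h1
    have hf : S.filter (fun p => q < p) = T.filter (fun p => q < p) := by
      ext p
      simp only [Finset.mem_filter]
      constructor
      · rintro ⟨h, h'⟩; exact ⟨(hagree p h').1 h, h'⟩
      · rintro ⟨h, h'⟩; exact ⟨(hagree p h').2 h, h'⟩
    rw [hf] at h1
    have h2 := Nat.add_left_cancel h1
    have hT0 : ∑ p ∈ T.filter (fun p => ¬ q < p), (p.factorial).factorization q = 0 := by
      apply Finset.sum_eq_zero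
      intro p hp
      simp only [Finset.mem_filter] at hp
      have hlt : p < q := by
        rcases lt_or_eq_of_le (not_lt.1 hp.2) with h | h
        · exact h
        · rw [h] at hp; exact absurd hp.1 hqT
      apply Nat.factorization_eq_zero_of_not_dvd
      rw [hqp.dvd_factorial]
      omega
    have hS1 : 1 ≤ ∑ p ∈ S.filter (fun p => ¬ q < p), (p.factorial).factorization q := by
      have hmem : q ∈ S.filter (fun p => ¬ q < p) := by simp [hqS]
      calc 1 ≤ (q.factorial).factorization q := by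
            rw [Nat.one_le_iff_ne_zero, Ne, Nat.factorization_eq_zero_iff]
            push Not
            exact ⟨hqp, hqp.dvd_factorial.2 le_rfl, Nat.factorial_ne_zero q⟩
        _ ≤ _ := Finset.single_le_sum (f := fun p => (p.factorial).factorization q)
            (fun _ _ => Nat.zero_le _) hmem
    omega
  have hagree : ∀ p, q < p → (p ∈ S ↔ p ∈ T) := by
    intro p hp
    by_contra hcon
    have : p ∈ symmDiff S T := by
      rw [Finset.mem_symmDiff]
      tauto
    have := Finset.le_max' _ _ this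
    omega
  rw [Finset.mem_symmDiff] at hqmem
  rcases hqmem with ⟨h1, h2⟩ | ⟨h1, h2⟩
  · exact key S T hS hT h1 h2 hagree heq
  · exact key T S hT hS h1 h2 (fun p hp => (hagree p hp).symm) heq.symm

theorem pow_le_M (n x : ℕ) (hx : x * Nat.primeCounting x ≤ n) :
    2 ^ Nat.primeCounting x ≤ M n := by
  classical
  have hsum : ∀ S : Finset ℕ, S ⊆ Nat.primesLE x → S.val.sum ≤ n := by
    intro S hS
    calc S.val.sum = ∑ p ∈ S, p := Finset.sum_val S
      _ ≤ S.card • x := by
        apply Finset.sum_le_card_nsmul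
        intro p hp
        exact (Nat.mem_primesLE.1 (hS hp)).1
      _ ≤ Nat.primeCounting x * x := by
        rw [smul_eq_mul]
        apply Nat.mul_le_mul_right
        rw [← Nat.primesLE_card_eq_primeCounting]
        exact Finset.card_le_card hS
      _ ≤ n := by rw [mul_comm]; exact hx
  have hfp : ∀ S : Finset ℕ, ∀ m, facProd (S.val + Multiset.replicate m 1) = facProd S.val := by
    intro S m
    simp [facProd]
  have hcard : ((Nat.primesLE x).powerset).card = 2 ^ Nat.primeCounting x := by
    rw [Finset.card_powerset, Nat.primesLE_card_eq_primeCounting]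
  rw [← hcard]
  unfold M
  rw [Set.ncard_eq_toFinset_card _ (multinomialValues_finite n)]
  have hdvd : ∀ S : Finset ℕ, S ⊆ Nat.primesLE x → facProd S.val ∣ n.factorial := by
    intro S hS
    have h := facProd_dvd (S.val + Multiset.replicate (n - S.val.sum) 1)
    rw [hfp, Multiset.sum_add, Multiset.sum_replicate, smul_eq_mul, mul_one] at h
    rwa [Nat.add_sub_cancel' (hsum S hS)] at h
  apply Finset.card_le_card_of_injOn (fun S => n.factorial / facProd S.val)
  · intro S hS
    rw [Finset.mem_coe, Finset.mem_powerset] at hS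
    simp only [Set.Finite.coe_toFinset]
    rw [mem_multinomialValues]
    refine ⟨S.val + Multiset.replicate (n - S.val.sum) 1, ?_, ?_⟩
    · rw [Multiset.sum_add, Multiset.sum_replicate, smul_eq_mul, mul_one]
      exact Nat.add_sub_cancel' (hsum S hS)
    · rw [hfp]
      exact Nat.div_mul_cancel (hdvd S hS)
  · intro S hS T hT heq
    rw [Finset.mem_coe, Finset.mem_powerset] at hS hT
    apply prodFac_injOn x hS hT
    simp only at heq ⊢
    have h1 := Nat.div_mul_cancel (hdvd S hS)
    have h2 := Nat.div_mul_cancel (hdvd T hT)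
    rw [heq] at h1
    have h3 := h1.trans h2.symm
    apply Nat.eq_of_mul_eq_mul_left _ h3
    apply Nat.div_pos (Nat.le_of_dvd (Nat.factorial_pos n) (hdvd T hT))
    exact Nat.pos_of_ne_zero (facProd_ne_zero _)


theorem M_le_exp (n : ℕ) (hn : 256 ≤ n) :
    (M n : ℝ) ≤ Real.exp (224 * Real.sqrt (n / (Nat.log 2 n : ℝ))) := by
  obtain ⟨c, hc, hcc⟩ := choice n hn
  have h1 : (M n : ℝ) ≤ ((∏ a ∈ Finset.range (Nat.log 2 n + 1),
      (hgt n a + (block a).card).choose (block a).card : ℕ) : ℝ) := by
    exact_mod_cast M_le_prod n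
  refine h1.trans ((prod_bound n c (Nat.log 2 n + 1) hc).trans ?_)
  rw [Real.exp_le_exp]
  exact hcc

theorem upper (n : ℕ) (hn : 256 ≤ n) :
    (M n : ℝ) ≤ Real.exp (224 * Real.sqrt (n / Real.log n)) := by
  refine (M_le_exp n hn).trans ?_
  rw [Real.exp_le_exp]
  apply mul_le_mul_of_nonneg_left _ (by norm_num)
  apply Real.sqrt_le_sqrt
  have hlog : 0 < Real.log n := Real.log_pos (by
    have : 1 < n := by omega
    exact_mod_cast this)
  exact div_le_div_of_nonneg_left (by positivity) hlog (log_le_natLog n hn)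

theorem primeCounting_ge (x : ℕ) (hx : 16 ≤ x) :
    (x : ℝ) ≤ 2 * Nat.primeCounting x * Real.log x := by
  have h := Chebyshev.pi_ge x
  have hx' : (16:ℝ) ≤ x := by exact_mod_cast hx
  have hlog : 0 < Real.log x := Real.log_pos (by linarith)
  rw [div_le_iff₀ hlog] at h
  have h1 : Real.log ((x : ℝ) + 1) ≤ 0.19 * x := by
    -- log (x+1) = log ((x+1)/17) + log 17 ≤ (x+1)/17 - 1 + log 17
    have h2 : Real.log ((x : ℝ) + 1) = Real.log (((x : ℝ) + 1) / 16) + Real.log 16 := by
      rw [← Real.log_mul (by positivity) (by norm_num)]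
      congr 1; field_simp
    have h3 : Real.log (((x : ℝ) + 1) / 16) ≤ ((x : ℝ) + 1) / 16 - 1 := 
      Real.log_le_sub_one_of_pos (by positivity)
    have h4 : Real.log 16 = 4 * Real.log 2 := by
      rw [show (16 : ℝ) = 2 ^ 4 by norm_num, Real.log_pow]; norm_num
    have h5 := Real.log_two_lt_d9
    rw [h2, h4]
    linarith
  have h5 := Real.log_two_gt_d9
  nlinarith

theorem lower (n : ℕ) (hn : 20000 ≤ n) :
    Real.exp (2 / 5 * Real.sqrt (n / Real.log n)) ≤ M n := by
  -- the least x with n < (x+1) π(x+1)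
  have hex : ∃ x : ℕ, n < (x + 1) * Nat.primeCounting (x + 1) := by
    refine ⟨n + 2, ?_⟩
    have h1 : 1 ≤ Nat.primeCounting (n + 2 + 1) := by
      calc 1 = Nat.primeCounting 2 := by decide
        _ ≤ _ := Nat.monotone_primeCounting (by omega)
    calc n < (n + 2 + 1) * 1 := by omega
      _ ≤ _ := Nat.mul_le_mul_left _ h1
  classical
  set x := Nat.find hex with hx
  have hx1 : n < (x + 1) * Nat.primeCounting (x + 1) := Nat.find_spec hex
  have hx2 : x * Nat.primeCounting x ≤ n := by
    rcases Nat.eq_zero_or_pos x with h | h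
    · rw [h]; simp
    · obtain ⟨y, hy⟩ : ∃ y, x = y + 1 := ⟨x - 1, by omega⟩
      have := Nat.find_min hex (m := y) (by omega)
      rw [hy]
      omega
  have hx16 : 16 ≤ x := by
    by_contra hcon
    push Not at hcon
    have h1 : Nat.primeCounting (x + 1) ≤ Nat.primeCounting 16 :=
      Nat.monotone_primeCounting (by omega)
    have h2 : Nat.primeCounting 16 = 6 := by decide
    rw [h2] at h1
    have : (x + 1) * Nat.primeCounting (x + 1) ≤ 16 * 6 := Nat.mul_le_mul (by omega) h1
    omega
  have hπ1 : 1 ≤ Nat.primeCounting x := by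
    calc 1 = Nat.primeCounting 2 := by decide
      _ ≤ _ := Nat.monotone_primeCounting (by omega)
  have hxn : x ≤ n := by
    calc x = x * 1 := by ring
      _ ≤ x * Nat.primeCounting x := Nat.mul_le_mul_left _ hπ1
      _ ≤ n := hx2
  have hstep : Nat.primeCounting (x + 1) ≤ Nat.primeCounting x + 1 := by
    rw [← Nat.primesLE_card_eq_primeCounting, ← Nat.primesLE_card_eq_primeCounting]
    calc (Nat.primesLE (x + 1)).card ≤ (insert (x + 1) (Nat.primesLE x)).card := by
          apply Finset.card_le_card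
          intro p hp
          rw [Nat.mem_primesLE] at hp
          rw [Finset.mem_insert, Nat.mem_primesLE]
          rcases Nat.lt_or_ge x p with h | h
          · left; omega
          · right; exact ⟨h, hp.2⟩
      _ ≤ _ := Finset.card_insert_le _ _
  set π := Nat.primeCounting x with hπ
  have hnr : (20000:ℝ) ≤ n := by exact_mod_cast hn
  have hlogn : 1 ≤ Real.log n := by
    rw [Real.le_log_iff_exp_le (by linarith)]
    linarith [Real.exp_one_lt_d9]
  have hxr : (16:ℝ) ≤ x := by exact_mod_cast hx16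
  have hπr : (1:ℝ) ≤ π := by exact_mod_cast hπ1
  have hlogx : Real.log x ≤ Real.log n := Real.log_le_log (by linarith) (by exact_mod_cast hxn)
  have hlogx0 : 0 ≤ Real.log x := Real.log_nonneg (by linarith)
  have hchain : (x : ℝ) ≤ 2 * π * Real.log n := by
    refine (primeCounting_ge x hx16).trans ?_
    exact mul_le_mul_of_nonneg_left hlogx (by positivity)
  have hn1 : (n : ℝ) ≤ (2 * Real.log n) * ((π + 1) * (π + 1)) := by
    have h1 : (n : ℝ) ≤ (x + 1) * (π + 1) := by
      have : n ≤ (x + 1) * (π + 1) := hx1.le.trans (Nat.mul_le_mul_left _ hstep)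
      exact_mod_cast this
    refine h1.trans ?_
    have h2 : (x : ℝ) + 1 ≤ (2 * Real.log n) * (π + 1) := by nlinarith
    nlinarith [mul_le_mul_of_nonneg_right h2 (show (0:ℝ) ≤ π + 1 by positivity)]
  set y := Real.sqrt (n / Real.log n) with hy
  have hyy : y * y = n / Real.log n := Real.mul_self_sqrt (by positivity)
  have hy0 : 0 ≤ y := Real.sqrt_nonneg _
  have hn2 : y * y ≤ 2 * ((π + 1) * (π + 1)) := by
    rw [hyy, div_le_iff₀ (by linarith)]
    linarith
  have hy8 : 8 ≤ y := by
    rw [hy]
    apply Real.le_sqrt_of_sq_le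
    rw [le_div_iff₀ (by linarith)]
    -- log n ≤ 2 log √n ≤ 2 √n
    have h1 : Real.log n = 2 * Real.log (Real.sqrt n) := by
      rw [Real.log_sqrt (by positivity)]; ring
    have h2 : Real.log (Real.sqrt n) ≤ Real.sqrt n - 1 := Real.log_le_sub_one_of_pos (by positivity)
    have h3 : (141 : ℝ) ≤ Real.sqrt n := by
      apply Real.le_sqrt_of_sq_le
      norm_num; linarith
    have h4 : Real.sqrt n * Real.sqrt n = n := Real.mul_self_sqrt (by positivity)
    nlinarith
  have hπy : 0.7 * y ≤ (π : ℝ) + 1 := by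
    by_contra hcon
    push Not at hcon
    nlinarith
  have hM : (2:ℝ) ^ π ≤ M n := by exact_mod_cast pow_le_M n x hx2
  refine le_trans ?_ hM
  have h2 : (2:ℝ) ^ π = Real.exp (π * Real.log 2) := by
    rw [Real.exp_nat_mul, Real.exp_log (by norm_num)]
  rw [h2, Real.exp_le_exp]
  have h5 := Real.log_two_gt_d9
  have h6 := Real.log_two_lt_d9
  nlinarith

theorem threshold (n : ℕ) (hn : 2 ^ 500000 ≤ n) :
    (M n : ℝ) ≤ Real.exp (-(Real.sqrt n / 20)) * pSharp n := by
  have hL : 500000 ≤ Nat.log 2 n := by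
    calc 500000 = Nat.log 2 (2 ^ 500000) := by rw [Nat.log_pow (by norm_num)]
      _ ≤ _ := Nat.log_mono_right hn
  have hLr : (500000 : ℝ) ≤ (Nat.log 2 n : ℝ) := by exact_mod_cast hL
  have hn10 : 2 ^ 20 ≤ n := le_trans (Nat.pow_le_pow_right (by norm_num) (by norm_num)) hn
  have h1 := M_le_exp n (le_trans (by norm_num) hn10)
  have hnr : (1000000 : ℝ) ≤ n := by
    have : 1000000 ≤ n := le_trans (by norm_num) hn10
    exact_mod_cast this
  set s := Real.sqrt n with hs
  have hs0 : 0 ≤ s := Real.sqrt_nonneg _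
  have hss : s * s = n := Real.mul_self_sqrt (by positivity)
  have hs1000 : 1000 ≤ s := by
    rw [hs]; apply Real.le_sqrt_of_sq_le
    have h1000 : (1000 : ℝ) ^ 2 = 1000000 := by norm_num
    rw [h1000]; exact hnr
  have h2 : Real.sqrt (n / (Nat.log 2 n : ℝ)) ≤ s / 707 := by
    apply Real.sqrt_le_iff.2
    constructor
    · positivity
    · rw [div_le_iff₀ (by linarith), div_pow, sq, hss]
      have : (n : ℝ) / 707 ^ 2 * (Nat.log 2 n : ℝ) ≥ (n : ℝ) / 707 ^ 2 * 500000 :=
        mul_le_mul_of_nonneg_left hLr (by positivity)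
      have h3 : (n : ℝ) / 707 ^ 2 * 500000 ≥ n := by
        rw [ge_iff_le, div_mul_eq_mul_div, le_div_iff₀ (by norm_num)]
        nlinarith
      linarith
  set k := Nat.sqrt (n / 3) with hk
  have hk1 : 3 * (k * k) ≤ n := by
    have : k * k ≤ n / 3 := Nat.sqrt_le _
    omega
  have hk2 : n / 3 < (k + 1) * (k + 1) := Nat.lt_succ_sqrt _
  have hk3 : n ≤ 3 * ((k + 1) * (k + 1)) := by omega
  have hk3r : s * s ≤ 3 * (((k : ℝ) + 1) * (k + 1)) := by rw [hss]; exact_mod_cast hk3
  have hk4 : 0.577 * s ≤ (k : ℝ) + 1 := by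
    by_contra hcon
    push Not at hcon
    have : (0:ℝ) ≤ k := by positivity
    nlinarith
  have hp : (2:ℝ) ^ k ≤ pSharp n := by exact_mod_cast pow_le_pSharp n k hk1
  have h2k : (2:ℝ) ^ k = Real.exp (k * Real.log 2) := by
    rw [Real.exp_nat_mul, Real.exp_log (by norm_num)]
  calc (M n : ℝ) ≤ Real.exp (224 * Real.sqrt (n / (Nat.log 2 n : ℝ))) := h1
    _ ≤ Real.exp (-(s / 20)) * 2 ^ k := by
        rw [h2k, ← Real.exp_add, Real.exp_le_exp]
        have h5 := Real.log_two_gt_d9
        nlinarith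
    _ ≤ _ := mul_le_mul_of_nonneg_left hp (by positivity)

/-- Main theorem. -/
theorem main :
    (∀ n : ℕ, 2 ^ 500000 ≤ n → M n ≤ pSharp n) ∧
    (∀ n : ℕ, 2 ^ 500000 ≤ n → (M n : ℝ) ≤ Real.exp (-(Real.sqrt n / 20)) * pSharp n) ∧
    (∀ n : ℕ, 256 ≤ n → (M n : ℝ) ≤ Real.exp (224 * Real.sqrt (n / Real.log n))) ∧
    (∀ n : ℕ, 20000 ≤ n → Real.exp (2 / 5 * Real.sqrt (n / Real.log n)) ≤ M n) := by
  refine ⟨?_, threshold, upper, lower⟩
  intro n hn
  have h := threshold n hn
  have h1 : Real.exp (-(Real.sqrt n / 20)) ≤ 1 := by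
    rw [Real.exp_le_one_iff]
    have := Real.sqrt_nonneg (n : ℝ)
    linarith
  have h2 : (M n : ℝ) ≤ (pSharp n : ℝ) := by
    refine h.trans ?_
    have : (0:ℝ) ≤ pSharp n := by positivity
    nlinarith
  exact_mod_cast h2

end Pool.Agent.Lib.MP_2e8272_nt
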